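import Pool.Agent.U148.HG.Pub

/-!
# Maximality of the associated order in the canonical nonclassical Hopf-Galois structure

`L/K` is a Galois extension of `p`-adic fields with group `G` and `p ∤ [L:K]`.  We prove that the
associated order of the ring of integers of `L` in `H_λ = L[λ(G)]^G` is a maximal order.

Definitions (in `Pool/Agent/U148/HG/Pub.lean`, `Order.lean`): `NN K L` is the group `λ(G)`, `LN K L`
the group algebra `L[λ(G)]`, `actN` the action of `G` on it, `HlamN K L` the subalgebra of the fixed
elements, `HH K L` the same as a type, `hactN` the action of `L[λ(G)]` on `L`, `assocN R` the set of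
the elements of `H_λ` that map the subring `R` of `L` to itself, and `IsOrder`, `IsMaximalOrder` are
orders and maximal orders.

Proof.  `H_λ` is the algebra of all endomorphisms of the `K`-space `L` commuting with `G`.  Let `Γ`
be an order containing the associated order, `h ∈ Γ`, and let `w` be in the trace dual of `𝔒_L` and
`y ∈ 𝔒_L`.  The map `f(z) = Tr(w z) y` preserves `𝔒_L`, so `f' = ∑ g f g⁻¹` belongs to the associated
order and `h f'` belongs to `Γ`; its trace on `L` is integral and equals
`[L:K] Tr(w h(y))`.  As `[L:K]` is a unit, `Tr(w h(y))` is integral for all `w` in the trace dual,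
hence `h(y) ∈ 𝔒_L`, as `𝔒_L` is its own double trace dual.
-/

set_option autoImplicit false

namespace Pool.Agent.Results.MP_46c6cb_nt.MaximalAssociatedOrder

open Pool.Agent.U148.HG

/-- The ring of integers of an extension `F` of `ℚ_p`: the elements integral over `ℤ_p`. -/
noncomputable def integers (p : ℕ) [Fact p.Prime] (F : Type*) [Field F] [Algebra ℚ_[p] F] :
    Subring F :=
  letI : Algebra ℤ_[p] F := ((algebraMap ℚ_[p] F).comp (algebraMap ℤ_[p] ℚ_[p])).toAlgebra
  (integralClosure ℤ_[p] F).toSubring

theorem result (p : ℕ) [Fact p.Prime] (K L : Type*) [Field K] [Field L] [Algebra ℚ_[p] K]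
    [Algebra ℚ_[p] L] [Algebra K L] [IsScalarTower ℚ_[p] K L] [FiniteDimensional ℚ_[p] K]
    [FiniteDimensional K L] [IsGalois K L] (hp : ¬ p ∣ Module.finrank K L) :
    IsMaximalOrder (integers p K) (assocN (K := K) (integers p L)) := by
  change IsMaximalOrder (integers p K) (assocOrder (K := K) (integers p L))
  let iK : Algebra ℤ_[p] K := ((algebraMap ℚ_[p] K).comp (algebraMap ℤ_[p] ℚ_[p])).toAlgebra
  let iL : Algebra ℤ_[p] L := ((algebraMap ℚ_[p] L).comp (algebraMap ℤ_[p] ℚ_[p])).toAlgebra
  have t1 : IsScalarTower ℤ_[p] ℚ_[p] K := IsScalarTower.of_algebraMap_eq fun _ => rfl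
  have t2 : IsScalarTower ℤ_[p] ℚ_[p] L := IsScalarTower.of_algebraMap_eq fun _ => rfl
  have t3 : IsScalarTower ℤ_[p] K L := by
    refine IsScalarTower.of_algebraMap_eq fun x => ?_
    exact IsScalarTower.algebraMap_apply ℚ_[p] K L (algebraMap ℤ_[p] ℚ_[p] x)
  have d1 : IsDedekindDomain (integers p K) := dede p K
  have d2 : IsFractionRing (integers p K) K := frac p K
  have hL : integers p L = (integralClosure (integers p K) L).toSubring := intL p K L
  have hc : CharZero K := charZero_of_injective_algebraMap (algebraMap ℚ_[p] K).injective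
  have hne : ((Module.finrank K L : ℕ) : K) ≠ 0 := by
    have : 0 < Module.finrank K L := Module.finrank_pos
    exact_mod_cast this.ne'
  have hu : ((Module.finrank K L : ℕ) : K)⁻¹ ∈ integers p K := unit_mem p K hp
  rw [hL]
  exact ⟨assoc_isOrder (integers p K), fun Γ' hΓ' hle =>
    le_antisymm (order_le (integers p K) hne hu hΓ' hle) hle⟩

end Pool.Agent.Results.MP_46c6cb_nt.MaximalAssociatedOrder
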